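import Pool.Agent.H.MP_42242f_al.A

set_option autoImplicit false

namespace Pool.Agent.Results.MP_42242f_al.Bound

open Pool.Agent.PdOne Pool.Agent.PdFun Pool.Agent.PowPd MvPolynomial Finset CategoryTheory

/-- The projective dimension of the ideal `I` as a module. -/
noncomputable def pdim {S : Type} [CommRing S] (I : Ideal S) : WithBot ℕ∞ :=
  projectiveDimension (ModuleCat.of S I)

lemma divides {σ α ι : Type} [DecidableEq α] [Fintype ι] (e : α → σ →₀ ℕ) (he : ∀ j v, e j v ≤ 1)
    {c : Finset α} {f : ι → α} (hc : #c = Fintype.card ι) (hf : ∀ i, f i ∈ c) {m : σ →₀ ℕ}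
    (h1 : ∑ i, e (f i) ≤ m) (h2 : ∀ i ∈ c, ∃ d, c.erase i ⊆ d ∧ ∑ j ∈ d, e j ≤ m) :
    ∑ j ∈ c, e j ≤ m := fun v => by
  by_cases h : ∃ i ∈ c, e i v = 0
  · obtain ⟨i, hi, h⟩ := h
    obtain ⟨d, h3, h4⟩ := h2 i hi
    refine le_trans ?_ ((sum_le_sum_of_subset h3).trans h4 v)
    rw [← add_sum_erase c _ hi, Finsupp.add_apply, h, zero_add]
  · push Not at h
    refine le_trans ?_ (h1 v)
    rw [Finsupp.finsetSum_apply, Finsupp.finsetSum_apply]
    refine (sum_le_card_nsmul _ _ 1 fun j _ => he j v).trans ?_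
    rw [hc]
    exact card_nsmul_le_sum _ _ 1 fun i _ => Nat.one_le_iff_ne_zero.2 (h _ (hf i))

/-- For `q` large, the `r`-th power of an ideal generated by `q` square-free monomials has
projective dimension at most `q.choose r - 1`. -/
theorem result (r : ℕ) (hr : 1 ≤ r) : ∃ Q : ℕ, ∀ q ≥ Q, ∀ (k : Type) [Field k] (n : ℕ)
    (F : Fin q → Finset (Fin n)),
    pdim (Ideal.span (Set.range fun j => ∏ v ∈ F j, (X v : MvPolynomial (Fin n) k)) ^ r) ≤
      (q.choose r - 1 : ℕ) := by
  classical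
  obtain ⟨s, rfl⟩ : ∃ s, r = s + 1 := ⟨r - 1, by omega⟩
  refine ⟨2 * (s + 1) + 2 * ((s + 1) ^ (s + 1) * 2 ^ (s + 1)), fun q hq k _ n F => ?_⟩
  have : NeZero q := ⟨by omega⟩
  let e : Fin q → Fin n →₀ ℕ := fun j => Spd.ind (F j)
  have he : ∀ j v, e j v ≤ 1 := fun j v => by
    simp only [e, Spd.ind, Finsupp.indicator_apply]
    split_ifs <;> simp
  let W : (Fin (s + 1) → Fin q) → Fin n →₀ ℕ := fun f => ∑ i, e (f i)
  let V : Finset (Fin q) → Fin n →₀ ℕ := fun c => ∑ j ∈ c, e j
  let A : Finset (Fin (s + 1) → Fin q) := univ.filter fun f => ¬ Function.Injective f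
  let B : Finset (Finset (Fin q)) := powersetCard (s + 1) univ
  have h0 := Nat.choose_pos (show s + 1 ≤ q by omega)
  have h1 : P k (q.choose (s + 1)) (CI k (W '' ↑A ∪
      V '' ↑B) 0) 0 := by
    refine game W _ _ _ _ _ fun T hT => ?_
    obtain ⟨C, h1, h2, h3⟩ := reserve (by simpa using hq) T fun f hf => (mem_filter.1 (hT hf)).2
    rw [show B = _ from (sdiff_union_of_subset h1).symm, coe_union, Set.image_union]
    refine game V _ _ _ _ _ fun T' hT' => leaf V _ _ _ _ fun h4 => ?_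
    have := h3 T' hT' fun c hc => by
      obtain ⟨f, hf, h5⟩ := h2 c hc
      by_contra h6
      push Not at h6
      refine h4 c hc (divides e he (by simpa using h1 hc) h5
        (le_sup_of_le_left (le_sup_of_le_right (le_sup (f := W) hf))) fun i hi => ?_)
      obtain ⟨d, h7, h8⟩ := h6 i hi
      exact ⟨d, h8, le_sup_of_le_right (le_sup (f := V) h7)⟩
    rw [Fintype.card_fin] at this
    omega
  have h2 : W '' ↑A ∪
      V '' ↑B = Set.range W := by
    refine (Set.union_subset (Set.image_subset_range _ _) ?_).antisymm ?_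
    · rintro _ ⟨c, hc, rfl⟩
      have hc := mem_powersetCard_univ.1 (mem_coe.1 hc)
      refine ⟨c.orderEmbOfFin hc, ?_⟩
      simp only [W, V]
      rw [← sum_image (f := e) (c.orderEmbOfFin hc).injective.injOn, image_orderEmbOfFin_univ]
    · rintro _ ⟨f, rfl⟩
      by_cases hf : Function.Injective f
      · exact .inr ⟨univ.image f, by simp [B, card_image_of_injective _ hf], sum_image hf.injOn⟩
      · exact .inl ⟨f, by simpa [A] using hf, rfl⟩
  have h3 : Ideal.span (Set.range fun j => ∏ v ∈ F j, (X v : MvPolynomial (Fin n) k)) ^ (s + 1) =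
      CI k (Set.range W) 0 := by
    rw [Ideal.span, Submodule.span_pow, CI, Ideal.span]
    congr 1
    ext g
    simp only [Set.mem_pow, List.prod_ofFn, tsub_zero, ← Set.range_comp,
      Set.mem_range, Function.comp, W, monomial_sum_one, e, Spd.mon_ind]
    refine ⟨fun ⟨f, hf⟩ => ?_, fun ⟨f, hf⟩ => ⟨fun i => ⟨_, f i, rfl⟩, hf⟩⟩
    choose j hj using fun i => (f i).2
    exact ⟨j, by simpa only [hj] using hf⟩
  rw [h3, ← h2, pdim, projectiveDimension_le_iff]
  rcases h1 with h1 | ⟨a, h1, h4⟩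
  · rw [h1]
    exact (pd_proj (S := _) (A := MvPolynomial (Fin n) k)).equiv Submodule.topEquiv.symm
  · exact h4.mono (by omega)

end Pool.Agent.Results.MP_42242f_al.Bound
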